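import Mathlib

/-!
Sums of two frequently hypercyclic vectors on a Banach space.

The Banach space is `c₀`, the operator is the weighted backward shift
`(T a)(n) = (n+2)/(n+1) * a(n+1)`.  Every vector of `c₀` is the sum of two frequently
hypercyclic vectors of `T`.
-/

set_option autoImplicit false

namespace Pool.Agent.Helper63.FHCSum

open Filter Topology ZeroAtInfty

noncomputable section

/-- The space `c₀` of real null sequences, with the sup norm. -/
abbrev X : Type := C₀(ℕ, ℝ)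

/-- A null sequence as an element of `c₀`. -/
def mk (g : ℕ → ℝ) (h : Tendsto g atTop (𝓝 0)) : X where
  toFun := g
  continuous_toFun := continuous_of_discreteTopology
  zero_at_infty' := by
    rw [cocompact_eq_cofinite, Nat.cofinite_eq_atTop]
    exact h

@[simp] lemma mk_apply (g : ℕ → ℝ) (h : Tendsto g atTop (𝓝 0)) (n : ℕ) : mk g h n = g n := rfl

lemma tendsto_coe (f : X) : Tendsto (fun n => f n) atTop (𝓝 0) := by
  have h := f.zero_at_infty'
  rw [cocompact_eq_cofinite, Nat.cofinite_eq_atTop] at h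
  exact h

lemma norm_le_iff (f : X) {C : ℝ} (hC : 0 ≤ C) : ‖f‖ ≤ C ↔ ∀ n, |f n| ≤ C := by
  rw [← ZeroAtInftyContinuousMap.norm_toBCF_eq_norm, BoundedContinuousFunction.norm_le hC]
  rfl

lemma abs_apply_le (f : X) (n : ℕ) : |f n| ≤ ‖f‖ :=
  (norm_le_iff f (norm_nonneg f)).1 le_rfl n

lemma coef_le (n : ℕ) : ((n : ℝ) + 2) / ((n : ℝ) + 1) ≤ 2 := by
  have hn : (0 : ℝ) ≤ n := Nat.cast_nonneg n
  rw [div_le_iff₀ (by positivity)]
  nlinarith

lemma tendsto_shift (f : X) :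
    Tendsto (fun n : ℕ => ((n : ℝ) + 2) / ((n : ℝ) + 1) * f (n + 1)) atTop (𝓝 0) := by
  have h1 : Tendsto (fun n : ℕ => 2 * |f (n + 1)|) atTop (𝓝 0) := by
    have h2 := ((tendsto_add_atTop_iff_nat 1).2 (tendsto_coe f)).abs.const_mul 2
    simpa using h2
  refine squeeze_zero_norm (fun n => ?_) h1
  have hn : (0 : ℝ) ≤ n := Nat.cast_nonneg n
  rw [norm_mul, Real.norm_eq_abs, Real.norm_eq_abs, abs_of_nonneg (by positivity)]
  exact mul_le_mul_of_nonneg_right (coef_le n) (abs_nonneg _)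

/-- The weighted backward shift as a linear map. -/
def Tlin : X →ₗ[ℝ] X where
  toFun f := mk (fun n : ℕ => ((n : ℝ) + 2) / ((n : ℝ) + 1) * f (n + 1)) (tendsto_shift f)
  map_add' f g := by
    ext n
    simp [mul_add]
  map_smul' c f := by
    ext n
    simp
    ring

/-- The weighted backward shift. -/
def T : X →L[ℝ] X := Tlin.mkContinuous 2 (by
  intro f
  rw [norm_le_iff _ (by positivity)]
  intro n
  have hn : (0 : ℝ) ≤ n := Nat.cast_nonneg n
  change |((n : ℝ) + 2) / ((n : ℝ) + 1) * f (n + 1)| ≤ 2 * ‖f‖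
  rw [abs_mul, abs_of_nonneg (by positivity)]
  exact mul_le_mul (coef_le n) (abs_apply_le f _) (abs_nonneg _) (by norm_num))

lemma T_apply (f : X) (n : ℕ) : T f n = ((n : ℝ) + 2) / ((n : ℝ) + 1) * f (n + 1) := rfl

lemma T_pow_apply (m : ℕ) (f : X) (n : ℕ) :
    (T ^ m) f n = ((n : ℝ) + m + 1) / ((n : ℝ) + 1) * f (n + m) := by
  induction m generalizing f n with
  | zero =>
    have hn : (0 : ℝ) ≤ n := Nat.cast_nonneg n
    have : ((n : ℝ) + 1) ≠ 0 := by positivity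
    simp [div_self this]
  | succ m ih =>
    rw [pow_succ', mul_apply_eq_comp, T_apply, ih]
    have hn : (0 : ℝ) ≤ n := Nat.cast_nonneg n
    have h1 : ((n : ℝ) + 1) ≠ 0 := by positivity
    have h2 : ((n : ℝ) + 1 + 1) ≠ 0 := by positivity
    have e : n + 1 + m = n + (m + 1) := by ring
    rw [e]
    push_cast
    field_simp
    ring

/-! ### Periodic patterns -/

/-- The periodic sequence with period `2 ^ l.length` which starts with the list `l` and continues
with zeros up to the end of the period. -/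
def pat (l : List ℚ) (m : ℕ) : ℝ := ((l.getD (m % 2 ^ l.length) 0 : ℚ) : ℝ)

lemma pat_periodic (l : List ℚ) (m s : ℕ) : pat l (m + 2 ^ l.length * s) = pat l m := by
  simp [pat]

lemma pat_bound (l : List ℚ) : ∃ M : ℕ, ∀ m, |pat l m| ≤ M := by
  have h : ∀ r : ℕ, |((l.getD r 0 : ℚ) : ℝ)| ≤ ∑ i ∈ Finset.range l.length, |((l.getD i 0 : ℚ) : ℝ)| := by
    intro r
    by_cases hr : r < l.length
    · exact Finset.single_le_sum (f := fun i => |((l.getD i 0 : ℚ) : ℝ)|)
        (fun i _ => abs_nonneg _) (Finset.mem_range.2 hr)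
    · rw [List.getD_eq_default _ _ (not_lt.1 hr)]
      simp only [Rat.cast_zero, abs_zero]
      exact Finset.sum_nonneg (fun i _ => abs_nonneg _)
  obtain ⟨M, hM⟩ := exists_nat_ge (∑ i ∈ Finset.range l.length, |((l.getD i 0 : ℚ) : ℝ)|)
  exact ⟨M, fun m => (h _).trans hM⟩

lemma tendsto_bounded_div (g : ℕ → ℝ) (M : ℝ) (hg : ∀ m, |g m| ≤ M) :
    Tendsto (fun m : ℕ => g m / ((m : ℝ) + 1)) atTop (𝓝 0) := by
  have h1 : Tendsto (fun m : ℕ => M / ((m : ℝ) + 1)) atTop (𝓝 0) := by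
    have := (tendsto_one_div_add_atTop_nhds_zero_nat (𝕜 := ℝ)).const_mul M
    simpa [div_eq_mul_inv] using this
  refine squeeze_zero_norm (fun m => ?_) h1
  have hm : (0 : ℝ) ≤ m := Nat.cast_nonneg m
  rw [norm_div, Real.norm_eq_abs, Real.norm_eq_abs, abs_of_nonneg (by positivity : (0:ℝ) ≤ (m : ℝ) + 1)]
  gcongr
  exact hg m

/-- The element of `c₀` attached to a pattern. -/
def P (l : List ℚ) : X :=
  mk (fun m : ℕ => pat l m / ((m : ℝ) + 1))
    (tendsto_bounded_div (pat l) ((pat_bound l).choose : ℕ) (pat_bound l).choose_spec)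

lemma P_apply (l : List ℚ) (m : ℕ) : P l m = pat l m / ((m : ℝ) + 1) := rfl

/-- The vectors attached to patterns are dense in `c₀`. -/
lemma exists_P_near (f : X) {ε : ℝ} (hε : 0 < ε) : ∃ l : List ℚ, ‖P l - f‖ ≤ ε := by
  choose q hq using fun m : ℕ => exists_rat_near (((m : ℝ) + 1) * f m) hε
  have hq' : ∀ m : ℕ, |(q m : ℝ) / ((m : ℝ) + 1) - f m| ≤ ε := by
    intro m
    have hm : (0 : ℝ) ≤ m := Nat.cast_nonneg m
    have h1 : (0 : ℝ) < (m : ℝ) + 1 := by positivity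
    have h2 : (q m : ℝ) / ((m : ℝ) + 1) - f m = ((q m : ℝ) - ((m : ℝ) + 1) * f m) / ((m : ℝ) + 1) := by
      field_simp
    rw [h2, abs_div, abs_of_pos h1, div_le_iff₀ h1]
    have h3 := hq m
    rw [abs_sub_comm] at h3
    nlinarith
  have hqb : ∀ m : ℕ, |(q m : ℝ)| ≤ ((m : ℝ) + 1) * (‖f‖ + ε) := by
    intro m
    have hm : (0 : ℝ) ≤ m := Nat.cast_nonneg m
    have h1 := hq m
    have h2 := abs_apply_le f m
    have h3 : |(q m : ℝ)| ≤ |((m : ℝ) + 1) * f m| + |((m : ℝ) + 1) * f m - q m| := by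
      have := abs_sub_abs_le_abs_sub (q m : ℝ) (((m : ℝ) + 1) * f m)
      rw [abs_sub_comm] at this
      linarith
    rw [abs_mul, abs_of_nonneg (by positivity : (0:ℝ) ≤ (m : ℝ) + 1)] at h3
    nlinarith
  -- choose the length
  have hlim : Tendsto (fun e : ℕ => ((e : ℝ) ^ 1 / (2 : ℝ) ^ e) * (‖f‖ + ε)) atTop (𝓝 0) := by
    have := (tendsto_pow_const_div_const_pow_of_one_lt 1 (by norm_num : (1 : ℝ) < 2)).mul_const (‖f‖ + ε)
    simpa using this
  have hev1 : ∀ᶠ e : ℕ in atTop, ((e : ℝ) ^ 1 / (2 : ℝ) ^ e) * (‖f‖ + ε) ≤ ε / 2 := by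
    filter_upwards [hlim.eventually (gt_mem_nhds (half_pos hε))] with e he using he.le
  have hev2 : ∀ᶠ e : ℕ in atTop, ∀ m ≥ e, |f m| ≤ ε / 2 := by
    have h := (tendsto_coe f).abs
    simp only [abs_zero] at h
    have h' := h.eventually (gt_mem_nhds (half_pos hε))
    obtain ⟨N, hN⟩ := eventually_atTop.1 h'
    filter_upwards [eventually_ge_atTop N] with e he m hm
    exact (hN m (he.trans hm)).le
  obtain ⟨e, he1, he2, he3⟩ := (hev1.and (hev2.and (eventually_ge_atTop 1))).exists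
  set l : List ℚ := (List.range e).map q with hl
  have hlen : l.length = e := by simp [hl]
  have hget : ∀ r, r < e → l.getD r 0 = q r := by
    intro r hr
    simp [hl, List.getD_eq_getElem?_getD, hr]
  have hget' : ∀ r, e ≤ r → l.getD r 0 = 0 := by
    intro r hr
    exact List.getD_eq_default _ _ (by rw [hlen]; exact hr)
  refine ⟨l, ?_⟩
  rw [norm_le_iff _ hε.le]
  intro m
  have hm0 : (0 : ℝ) ≤ m := Nat.cast_nonneg m
  rw [ZeroAtInftyContinuousMap.sub_apply, P_apply]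
  unfold pat
  rw [hlen]
  by_cases hm : m < 2 ^ e
  · rw [Nat.mod_eq_of_lt hm]
    by_cases hme : m < e
    · rw [hget m hme]
      exact hq' m
    · rw [hget' m (not_lt.1 hme)]
      have := he2 m (not_lt.1 hme)
      simp only [Rat.cast_zero, zero_div, zero_sub, abs_neg]
      linarith
  · have hm' : 2 ^ e ≤ m := not_lt.1 hm
    have hlt : e ≤ m := (Nat.lt_two_pow_self).le.trans hm'
    have h1 := he2 m hlt
    have h2 : |((l.getD (m % 2 ^ e) 0 : ℚ) : ℝ)| ≤ (e : ℝ) * (‖f‖ + ε) := by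
      by_cases hr : m % 2 ^ e < e
      · rw [hget _ hr]
        refine (hqb _).trans ?_
        have : (((m % 2 ^ e : ℕ) : ℝ) + 1) ≤ e := by exact_mod_cast hr
        have hpos : 0 ≤ ‖f‖ + ε := by positivity
        exact mul_le_mul_of_nonneg_right this hpos
      · rw [hget' _ (not_lt.1 hr)]
        simp only [Rat.cast_zero, abs_zero]
        positivity
    have h3 : |((l.getD (m % 2 ^ e) 0 : ℚ) : ℝ) / ((m : ℝ) + 1)| ≤ ε / 2 := by
      rw [abs_div, abs_of_nonneg (by positivity : (0:ℝ) ≤ (m : ℝ) + 1)]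
      have h4 : ((2 : ℝ) ^ e) ≤ (m : ℝ) + 1 := by
        have : ((2 ^ e : ℕ) : ℝ) ≤ (m : ℝ) := by exact_mod_cast hm'
        push_cast at this
        linarith
      calc |((l.getD (m % 2 ^ e) 0 : ℚ) : ℝ)| / ((m : ℝ) + 1)
          ≤ ((e : ℝ) * (‖f‖ + ε)) / ((2 : ℝ) ^ e) := by
            apply div_le_div₀ (by positivity) h2 (by positivity) h4
        _ = ((e : ℝ) ^ 1 / (2 : ℝ) ^ e) * (‖f‖ + ε) := by rw [pow_one]; ring
        _ ≤ ε / 2 := he1
    have h5 := abs_sub (((l.getD (m % 2 ^ e) 0 : ℚ) : ℝ) / ((m : ℝ) + 1)) (f m)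
    linarith

instance : TopologicalSpace.SeparableSpace X := by
  refine ⟨⟨Set.range P, Set.countable_range P, ?_⟩⟩
  intro f
  rw [Metric.mem_closure_iff]
  intro ε hε
  obtain ⟨l, hl⟩ := exists_P_near f (half_pos hε)
  refine ⟨P l, ⟨l, rfl⟩, ?_⟩
  rw [dist_comm, dist_eq_norm]
  linarith

/-- An enumeration of all lists of rationals. -/
def listOf (k : ℕ) : List ℚ := (Encodable.decode (α := List ℚ) k).getD []

lemma listOf_surjective (l : List ℚ) : ∃ k, listOf k = l := by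
  refine ⟨Encodable.encode l, ?_⟩
  simp [listOf]

/-- The type of the `i`-th dyadic block. -/
def typ (i : ℕ) : ℕ := padicValNat 2 i

lemma typ_eq (t s : ℕ) : typ (2 ^ t * (2 * s + 1)) = t := by
  unfold typ
  have : Fact (Nat.Prime 2) := ⟨Nat.prime_two⟩
  rw [padicValNat.mul (by positivity) (by omega), padicValNat.prime_pow,
    padicValNat.eq_zero_of_not_dvd (by omega)]
  simp

/-- The clipped pattern that is written on the block containing `m`. -/
def Q (m : ℕ) : ℝ :=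
  max (-(Nat.log 2 m : ℝ)) (min (Nat.log 2 m : ℝ) (pat (listOf (typ (Nat.log 2 m) / 2)) m))

lemma abs_Q_le (m : ℕ) : |Q m| ≤ (Nat.log 2 m : ℝ) := by
  have h : (0 : ℝ) ≤ (Nat.log 2 m : ℝ) := Nat.cast_nonneg _
  unfold Q
  rw [abs_le]
  constructor
  · exact le_max_left _ _
  · exact max_le (by linarith) (min_le_left _ _)

lemma Q_eq {m : ℕ} (l : List ℚ) (hl : listOf (typ (Nat.log 2 m) / 2) = l)
    (hM : |pat l m| ≤ (Nat.log 2 m : ℝ)) : Q m = pat l m := by
  unfold Q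
  rw [hl]
  rw [abs_le] at hM
  rw [min_eq_right hM.2, max_eq_right hM.1]

lemma tendsto_Q : Tendsto (fun m : ℕ => Q m / ((m : ℝ) + 1)) atTop (𝓝 0) := by
  have h0 : Tendsto (fun n : ℕ => (n : ℝ) ^ 1 / (2 : ℝ) ^ n) atTop (𝓝 0) :=
    tendsto_pow_const_div_const_pow_of_one_lt 1 (by norm_num : (1 : ℝ) < 2)
  have hlog : Tendsto (fun m : ℕ => Nat.log 2 m) atTop atTop := by
    refine tendsto_atTop.2 (fun b => ?_)
    filter_upwards [eventually_ge_atTop (2 ^ b)] with m hm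
    exact Nat.le_log_of_pow_le (by norm_num) hm
  have h1 := h0.comp hlog
  refine squeeze_zero_norm' ?_ h1
  filter_upwards [eventually_ge_atTop 1] with m hm
  have hm0 : (0 : ℝ) ≤ m := Nat.cast_nonneg m
  rw [norm_div, Real.norm_eq_abs, Real.norm_eq_abs, abs_of_nonneg (by positivity : (0:ℝ) ≤ (m : ℝ) + 1)]
  simp only [Function.comp]
  rw [pow_one]
  have h2 : ((2 : ℝ) ^ Nat.log 2 m) ≤ (m : ℝ) + 1 := by
    have : ((2 ^ Nat.log 2 m : ℕ) : ℝ) ≤ (m : ℝ) := by
      exact_mod_cast Nat.pow_log_le_self 2 (by omega)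
    push_cast at this
    linarith
  exact div_le_div₀ (by positivity) (abs_Q_le m) (by positivity) h2

/-- The two summands (`b = 0` and `b = 1`) of the vector `a`. -/
def Wfun (b : ℕ) (a : X) (m : ℕ) : ℝ :=
  if typ (Nat.log 2 m) % 2 = b then Q m / ((m : ℝ) + 1) else a m - Q m / ((m : ℝ) + 1)

lemma tendsto_Wfun (b : ℕ) (a : X) : Tendsto (Wfun b a) atTop (𝓝 0) := by
  have h1 : Tendsto (fun m : ℕ => |Q m / ((m : ℝ) + 1)| + (|a m| + |Q m / ((m : ℝ) + 1)|))
      atTop (𝓝 0) := by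
    have h2 := tendsto_Q.abs
    have h3 := (tendsto_coe a).abs
    have h4 := h2.add (h3.add h2)
    simpa using h4
  refine squeeze_zero_norm (fun m => ?_) h1
  unfold Wfun
  rw [Real.norm_eq_abs]
  have ha := abs_nonneg (a m)
  have hQ := abs_nonneg (Q m / ((m : ℝ) + 1))
  split_ifs
  · linarith
  · have := abs_sub (a m) (Q m / ((m : ℝ) + 1))
    linarith

/-- The two summands as elements of `c₀`. -/
def W (b : ℕ) (a : X) : X := mk (Wfun b a) (tendsto_Wfun b a)

lemma W_add (a : X) : W 0 a + W 1 a = a := by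
  ext m
  rw [ZeroAtInftyContinuousMap.add_apply]
  change Wfun 0 a m + Wfun 1 a m = a m
  unfold Wfun
  rcases Nat.mod_two_eq_zero_or_one (typ (Nat.log 2 m)) with h | h
  · simp [h]
  · simp [h]

/-- The key approximation. -/
lemma key (b : ℕ) (hb : b < 2) (a : X) (l : List ℚ) (k : ℕ) (hk : listOf k = l) {ε : ℝ}
    (hε : 0 < ε) :
    ∃ i₀ : ℕ, ∀ i ≥ i₀, typ i = 2 * k + b → ∀ s : ℕ, 2 ^ l.length * s < 2 ^ (i - 1) →
      ‖(T ^ (2 ^ i + 2 ^ l.length * s)) (W b a) - P l‖ ≤ ε := by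
  obtain ⟨M, hM⟩ := pat_bound l
  have hev1 : ∃ N, ∀ m ≥ N, |W b a m| ≤ ε / 8 := by
    have h := (tendsto_coe (W b a)).abs
    simp only [abs_zero] at h
    have h' := h.eventually (gt_mem_nhds (by positivity : 0 < ε / 8))
    obtain ⟨N, hN⟩ := eventually_atTop.1 h'
    exact ⟨N, fun m hm => (hN m hm).le⟩
  have hev2 : ∃ N, ∀ m ≥ N, |P l m| ≤ ε / 2 := by
    have h := (tendsto_coe (P l)).abs
    simp only [abs_zero] at h
    have h' := h.eventually (gt_mem_nhds (half_pos hε))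
    obtain ⟨N, hN⟩ := eventually_atTop.1 h'
    exact ⟨N, fun m hm => (hN m hm).le⟩
  obtain ⟨N1, hN1⟩ := hev1
  obtain ⟨N2, hN2⟩ := hev2
  refine ⟨M + N1 + N2 + l.length + 2, ?_⟩
  intro i hi hti s hs
  rw [norm_le_iff _ hε.le]
  intro j
  rw [ZeroAtInftyContinuousMap.sub_apply, T_pow_apply]
  set n := 2 ^ i + 2 ^ l.length * s with hn
  have hi1 : 2 ^ i = 2 * 2 ^ (i - 1) := by
    rw [← pow_succ']
    congr 1
    omega
  have hj0 : (0 : ℝ) ≤ j := Nat.cast_nonneg j
  have hilt : i - 1 < 2 ^ (i - 1) := Nat.lt_two_pow_self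
  by_cases hj : j < 2 ^ (i - 1)
  · -- the block contains the whole window
    have hlog : Nat.log 2 (j + n) = i := by
      rw [Nat.log_eq_iff (Or.inr ⟨by norm_num, by omega⟩)]
      constructor
      · omega
      · rw [pow_succ]
        omega
    have hW : W b a (j + n) = pat l (j + n) / (((j + n : ℕ) : ℝ) + 1) := by
      change Wfun b a (j + n) = _
      unfold Wfun
      rw [hlog, hti]
      have : (2 * k + b) % 2 = b := by omega
      rw [if_pos this]
      rw [Q_eq l]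
      · rw [hlog, hti]
        have : (2 * k + b) / 2 = k := by omega
        rw [this, hk]
      · rw [hlog]
        refine (hM _).trans ?_
        have : M ≤ i := by omega
        exact_mod_cast this
    have hper : pat l (j + n) = pat l j := by
      have : j + n = j + 2 ^ l.length * (2 ^ (i - l.length) + s) := by
        rw [hn, mul_add, ← pow_add]
        congr 3
        omega
      rw [this, pat_periodic]
    rw [hW, hper, P_apply]
    have e : ((j : ℝ) + (n : ℝ) + 1) / ((j : ℝ) + 1) * (pat l j / (((j + n : ℕ) : ℝ) + 1))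
        - pat l j / ((j : ℝ) + 1) = 0 := by
      have h1 : ((j : ℝ) + 1) ≠ 0 := by positivity
      have h2 : ((j : ℝ) + (n : ℝ) + 1) ≠ 0 := by positivity
      push_cast
      field_simp
      ring
    rw [e, abs_zero]
    exact hε.le
  · have hj' : 2 ^ (i - 1) ≤ j := not_lt.1 hj
    have hnj : n ≤ 3 * j := by omega
    have hcoef : ((j : ℝ) + (n : ℝ) + 1) / ((j : ℝ) + 1) ≤ 4 := by
      rw [div_le_iff₀ (by positivity)]
      have : (n : ℝ) ≤ 3 * j := by exact_mod_cast hnj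
      linarith
    have h1 : |W b a (j + n)| ≤ ε / 8 := hN1 _ (by omega)
    have h2 : |P l j| ≤ ε / 2 := hN2 _ (by omega)
    have h3 : |((j : ℝ) + (n : ℝ) + 1) / ((j : ℝ) + 1) * W b a (j + n)| ≤ 4 * (ε / 8) := by
      rw [abs_mul, abs_of_nonneg (by positivity)]
      exact mul_le_mul hcoef h1 (abs_nonneg _) (by norm_num)
    have h4 := abs_sub (((j : ℝ) + (n : ℝ) + 1) / ((j : ℝ) + 1) * W b a (j + n)) (P l j)
    linarith

/-- Both summands are frequently hypercyclic. -/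
lemma fhc (b : ℕ) (hb : b < 2) (a : X) (U : Set X) (hU : IsOpen U) (hne : U.Nonempty) :
    ∃ δ : ℝ, 0 < δ ∧ ∀ᶠ N : ℕ in Filter.atTop,
      δ * (N : ℝ) ≤ (({n : ℕ | n < N ∧ (T ^ n) (W b a) ∈ U}.ncard : ℕ) : ℝ) := by
  obtain ⟨f, hf⟩ := hne
  obtain ⟨ε, hε, hball⟩ := Metric.isOpen_iff.1 hU f hf
  obtain ⟨l, hl⟩ := exists_P_near f (show 0 < ε / 3 by positivity)
  obtain ⟨k, hk⟩ := listOf_surjective l
  obtain ⟨i₀, hi₀⟩ := key b hb a l k hk (show 0 < ε / 3 by positivity)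
  have hmem : ∀ i ≥ i₀, typ i = 2 * k + b → ∀ s : ℕ, 2 ^ l.length * s < 2 ^ (i - 1) →
      (T ^ (2 ^ i + 2 ^ l.length * s)) (W b a) ∈ U := by
    intro i hi hti s hs
    apply hball
    rw [Metric.mem_ball, dist_eq_norm]
    have h1 := hi₀ i hi hti s hs
    have h2 := norm_add_le ((T ^ (2 ^ i + 2 ^ l.length * s)) (W b a) - P l) (P l - f)
    rw [sub_add_sub_cancel] at h2
    linarith
  set t := 2 * k + b with ht
  set e := l.length with he
  refine ⟨1 / 2 ^ (2 ^ (t + 1) + 3 + e), by positivity, ?_⟩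
  filter_upwards [eventually_ge_atTop (2 ^ (i₀ + 2 ^ (t + 1) + 2 ^ t + 2 + e))] with N hN
  set L := Nat.log 2 N with hL
  have hLge : i₀ + 2 ^ (t + 1) + 2 ^ t + 2 + e ≤ L := Nat.le_log_of_pow_le (by norm_num) hN
  have hN0 : N ≠ 0 := by
    have : 0 < 2 ^ (i₀ + 2 ^ (t + 1) + 2 ^ t + 2 + e) := by positivity
    omega
  have hLN : 2 ^ L ≤ N := Nat.pow_log_le_self 2 hN0
  have hNL : N < 2 ^ (L + 1) := Nat.lt_pow_succ_log_self (by norm_num) N
  set s₀ := (L - 1 - 2 ^ t) / 2 ^ (t + 1) with hs₀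
  set i := 2 ^ t * (2 * s₀ + 1) with hidef
  have hti : typ i = t := typ_eq t s₀
  have hi_eq : i = 2 ^ (t + 1) * s₀ + 2 ^ t := by
    rw [hidef, pow_succ]
    ring
  have hdiv1 : 2 ^ (t + 1) * s₀ ≤ L - 1 - 2 ^ t := Nat.mul_div_le _ _
  have hdiv2 : L - 1 - 2 ^ t < 2 ^ (t + 1) * s₀ + 2 ^ (t + 1) := by
    have := Nat.lt_mul_div_succ (L - 1 - 2 ^ t) (show 0 < 2 ^ (t + 1) by positivity)
    rw [← hs₀, mul_add, mul_one] at this
    exact this
  have hiL : i + 1 ≤ L := by omega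
  have hiL2 : L < i + 1 + 2 ^ (t + 1) := by omega
  have hii₀ : i₀ ≤ i := by omega
  have hie : e + 1 ≤ i := by omega
  -- the set of good times contains an arithmetic progression
  have hsub : ((Finset.range (2 ^ (i - 1 - e))).image (fun s => 2 ^ i + 2 ^ e * s) : Set ℕ) ⊆
      {n : ℕ | n < N ∧ (T ^ n) (W b a) ∈ U} := by
    intro n hn
    rw [Finset.coe_image] at hn
    obtain ⟨s, hs, rfl⟩ := hn
    have hs' : s < 2 ^ (i - 1 - e) := by simpa using hs
    have hlt : 2 ^ e * s < 2 ^ (i - 1) := by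
      have h1 : 2 ^ e * s < 2 ^ e * 2 ^ (i - 1 - e) :=
        (Nat.mul_lt_mul_left (by positivity)).2 hs'
      have h2 : 2 ^ e * 2 ^ (i - 1 - e) = 2 ^ (i - 1) := by
        rw [← pow_add]
        congr 1
        omega
      omega
    refine ⟨?_, hmem i hii₀ hti s hlt⟩
    have h3 : 2 ^ (i + 1) ≤ 2 ^ L := Nat.pow_le_pow_right (by norm_num) hiL
    have h4 : 2 ^ (i + 1) = 2 * 2 ^ i := pow_succ' 2 i
    have h5 : 2 ^ (i - 1) ≤ 2 ^ i := Nat.pow_le_pow_right (by norm_num) (by omega)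
    change 2 ^ i + 2 ^ e * s < N
    omega
  have hfin : {n : ℕ | n < N ∧ (T ^ n) (W b a) ∈ U}.Finite :=
    (Set.finite_lt_nat N).subset (fun n hn => hn.1)
  have hcard : 2 ^ (i - 1 - e) ≤ {n : ℕ | n < N ∧ (T ^ n) (W b a) ∈ U}.ncard := by
    have h1 := Set.ncard_le_ncard hsub hfin
    rw [Set.ncard_coe_finset, Finset.card_image_of_injective, Finset.card_range] at h1
    · exact h1
    · intro s s' h
      have h' : 2 ^ e * s = 2 ^ e * s' := by
        have h'' : 2 ^ i + 2 ^ e * s = 2 ^ i + 2 ^ e * s' := h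
        omega
      exact Nat.eq_of_mul_eq_mul_left (by positivity) h'
  have hNle : N ≤ 2 ^ (2 ^ (t + 1) + 3 + e) * 2 ^ (i - 1 - e) := by
    rw [← pow_add]
    refine hNL.le.trans (Nat.pow_le_pow_right (by norm_num) ?_)
    omega
  have hcard' : ((2 : ℝ) ^ (i - 1 - e)) ≤
      (({n : ℕ | n < N ∧ (T ^ n) (W b a) ∈ U}.ncard : ℕ) : ℝ) := by
    exact_mod_cast hcard
  refine le_trans ?_ hcard'
  have hNle' : (N : ℝ) ≤ (2 : ℝ) ^ (2 ^ (t + 1) + 3 + e) * (2 : ℝ) ^ (i - 1 - e) := by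
    exact_mod_cast hNle
  rw [one_div, inv_mul_le_iff₀ (by positivity)]
  exact hNle'

/-- Every vector of `c₀` is a sum of two frequently hypercyclic vectors of `T`. -/
theorem main :
    ∀ x : X, ∃ y z : X, x = y + z ∧
        (∀ U : Set X, IsOpen U → U.Nonempty →
          ∃ δ : ℝ, 0 < δ ∧ ∀ᶠ N : ℕ in Filter.atTop,
            δ * (N : ℝ) ≤ (({n : ℕ | n < N ∧ (T ^ n) y ∈ U}.ncard : ℕ) : ℝ)) ∧
        (∀ U : Set X, IsOpen U → U.Nonempty →
          ∃ δ : ℝ, 0 < δ ∧ ∀ᶠ N : ℕ in Filter.atTop,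
            δ * (N : ℝ) ≤ (({n : ℕ | n < N ∧ (T ^ n) z ∈ U}.ncard : ℕ) : ℝ)) := by
  intro x
  exact ⟨W 0 x, W 1 x, (W_add x).symm, fhc 0 (by norm_num) x, fhc 1 (by norm_num) x⟩

instance : Nontrivial X := by
  refine ⟨⟨mk (fun n => if n = 0 then 1 else 0) ?_, 0, ?_⟩⟩
  · refine tendsto_const_nhds.congr' ?_
    filter_upwards [eventually_ge_atTop 1] with n hn
    rw [if_neg (by omega)]
  · intro h
    have := congrArg (fun f : X => f 0) h
    simp at this

end

end Pool.Agent.Helper63.FHCSum
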